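import Mathlib

set_option autoImplicit false

open Set Cardinal

namespace Pool.Agent.Results.MP_fb12c6_gt.Example

variable {X : Type}

def ball (E : Set (X × X)) (x : X) : Set X := {y | (x, y) ∈ E}

def nbhd (E : Set (X × X)) (A : Set X) : Set X := ⋃ a ∈ A, ball E a

structure IsBallean (𝓔 : Set (Set (X × X))) : Prop where
  diag : ∀ E ∈ 𝓔, diagonal X ⊆ E
  comp : ∀ E ∈ 𝓔, ∀ F ∈ 𝓔, ∃ D ∈ 𝓔, ∀ x y z, (x, y) ∈ E → (z, y) ∈ F → (x, z) ∈ D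
  cover : ⋃₀ 𝓔 = Set.univ

def Bounded (𝓔 : Set (Set (X × X))) (B : Set X) : Prop := ∃ E ∈ 𝓔, ∃ x, B ⊆ ball E x

/-- The entourages of the square ballean. -/
def square (𝓔 : Set (Set (X × X))) : Set (Set ((X × X) × X × X)) :=
  {G | ∃ E ∈ 𝓔, ∃ F ∈ 𝓔, G = {p | (p.1.1, p.2.1) ∈ E ∧ (p.1.2, p.2.2) ∈ F}}

noncomputable def cofAst (𝓔 : Set (Set (X × X))) : Cardinal :=
  sInf {c | ∃ 𝒞 ⊆ 𝓔, #𝒞 = c ∧ ∀ E ∈ 𝓔, ∃ C ∈ 𝒞, Bounded (square 𝓔) (E \ C)}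

noncomputable def cofAt (𝓔 : Set (Set (X × X))) (A : Set X) : Cardinal :=
  sInf {c | ∃ 𝒞 ⊆ 𝓔, #𝒞 = c ∧ ∀ E ∈ 𝓔, ∃ C ∈ 𝒞, Bounded 𝓔 (nbhd E A \ nbhd C A)}

noncomputable def cofStar (𝓔 : Set (Set (X × X))) : Cardinal := ⨆ A : Set X, cofAt 𝓔 A

def L : Set (Set (ℕ × ℕ)) :=
  {E | diagonal ℕ ⊆ E ∧ ∀ x, {y | (x, y) ∈ E}.Finite ∧ {y | (y, x) ∈ E}.Finite}

lemma graph {g : ℕ → ℕ} (h : ∀ x, x ≤ g x) :
    {p : ℕ × ℕ | p.1 = p.2 ∨ p.1 = g p.2} ∈ L ∧ {p : ℕ × ℕ | p.1 = p.2 ∨ g p.1 = p.2} ∈ L := by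
  have a : ∀ x, {y | x = y ∨ x = g y}.Finite := fun x => (finite_Iic x).subset fun y hy =>
    hy.elim Eq.ge fun e => (h y).trans e.ge
  have b : ∀ x, {y | y = x ∨ y = g x}.Finite := fun x => toFinite ({x, g x} : Set ℕ)
  exact ⟨⟨fun _ => .inl, fun x => ⟨a x, b x⟩⟩, fun _ => .inl, fun x =>
    ⟨by simpa [eq_comm] using b x, by simpa [eq_comm] using a x⟩⟩

lemma bdd {B : Set ℕ} (h : B.Finite) : Bounded L B :=
  ⟨diagonal ℕ ∪ {0} ×ˢ B, ⟨subset_union_left, fun x =>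
    ⟨(h.insert x).subset fun _ hy => hy.imp Eq.symm And.right,
      (toFinite {x, 0}).subset fun _ hy => hy.imp id And.left⟩⟩, 0, fun _ hy => .inr ⟨rfl, hy⟩⟩

theorem result : ∃ (X : Type) (𝓔 : Set (Set (X × X))), IsBallean 𝓔 ∧
    cofStar 𝓔 ≤ 1 ∧ ℵ₀ < cofAst 𝓔 := by
  have d := (graph (g := id) fun _ => le_rfl).1
  refine ⟨ℕ, L, ⟨fun _ h => h.1, fun E hE F hF => ⟨{p | ∃ y, (p.1, y) ∈ E ∧ (p.2, y) ∈ F},
    ⟨fun p hp => ⟨p.2, hE.1 hp, hF.1 rfl⟩, fun x => ⟨?_, ?_⟩⟩, fun x y z a b => ⟨y, a, b⟩⟩,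
    eq_univ_of_forall fun ⟨x, y⟩ => ?_⟩, ciSup_le' fun A => ?_, ?_⟩
  · exact ((hE.2 x).1.biUnion fun y _ => (hF.2 y).2).subset fun z hz => by simpa using hz
  · exact ((hF.2 x).1.biUnion fun y _ => (hE.2 y).2).subset fun z hz => by
      simpa [and_comm] using hz
  · rcases le_total x y with e | e
    · exact ⟨_, (graph (g := fun z => max z y) fun _ => le_max_left _ _).2, .inr (max_eq_right e)⟩
    · exact ⟨_, (graph (g := fun z => max z x) fun _ => le_max_left _ _).1,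
        .inr (max_eq_right e).symm⟩
  · rcases A.finite_or_infinite with h | h
    · exact csInf_le' ⟨{_}, singleton_subset_iff.2 d, mk_singleton _, fun E hE =>
        ⟨_, rfl, bdd (h.biUnion fun x _ => (hE.2 x).1).sdiff⟩⟩
    · choose g h1 h2 using h.exists_gt
      refine csInf_le' ⟨{_}, singleton_subset_iff.2 (graph fun x => (h2 x).le).1, mk_singleton _,
        fun E hE => ⟨_, rfl, bdd (finite_empty.subset fun y hy => hy.2 ?_)⟩⟩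
      exact mem_biUnion (h1 y) (.inr rfl)
  · obtain ⟨𝒞, a, b, c⟩ := csInf_mem (s := {c | ∃ 𝒞 ⊆ L, #𝒞 = c ∧ ∀ E ∈ L, ∃ C ∈ 𝒞,
      Bounded (square L) (E \ C)}) ⟨_, L, subset_rfl, rfl, fun E hE =>
        ⟨E, hE, _, ⟨_, d, _, d, rfl⟩, (0, 0), by simp⟩⟩
    refine lt_of_not_ge fun e => ?_
    obtain ⟨C, rfl⟩ := (le_aleph0_iff_set_countable.1 (b.trans_le e)).exists_eq_range
      (let ⟨C, h, _⟩ := c _ d; ⟨C, h⟩)
    choose g hg using fun x => (((finite_Iic x).biUnion fun n _ =>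
      ((a (mem_range_self n)).2 x).1).insert x).bddAbove
    obtain ⟨_, ⟨n, rfl⟩, _, ⟨E, hE, F, -, rfl⟩, p, s⟩ :=
      c _ (graph (g := fun x => g x + 1) fun x => (hg x (.inl rfl)).trans (Nat.le_succ _)).2
    exact Ici_infinite n ((hE.2 p.1).1.subset fun x hx => (@s (x, g x + 1) ⟨.inr rfl, fun t =>
      (hg x (.inr (mem_biUnion hx t))).not_gt (Nat.lt_succ_self _)⟩).1)

end Pool.Agent.Results.MP_fb12c6_gt.Example
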